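import Pool.Agent.Lib.MP_6b2d39_agHw.One
import Pool.Agent.Lib.MP_6b2d39_agHz.MainZ
import Pool.Agent.Lib.MP_6b2d39_agHl.ToGen

set_option autoImplicit false

namespace Pool.Agent.Lib.MP_6b2d39_agHw

open Pool.Agent.Lib.MP_6b2d39_agCr

/-- HW (D). One window for all multiplicities (`one_window` and `emp_z`). -/
theorem all_m : ∃ N0 : ℕ, ∀ (n : ℕ) (z : ℝ), N0 ≤ n → (4 * Real.log n) ^ 20 ≤ z →
      z ≤ (n : ℝ) ^ (1 / 10 : ℝ) → ∀ (d m : ℕ) (μ : Fin n → ℕ),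
      (∀ i, μ i = m ∨ μ i = m + 1) →
      1000 * z ^ 3 * ((m : ℝ) + 1) + Real.exp (-(z ^ (1 / 20 : ℝ) / 2)) * (d : ℝ) ^ 2 ≤
        |((vd d μ : ℤ) : ℝ)| →
      General (fun P => (Module.finrank ℂ (curves d μ P) : ℤ) = max (vd d μ) 0) := by
  refine one_window ?_
  obtain ⟨N0, h⟩ := Pool.Agent.Lib.MP_6b2d39_agHz.emp_z
  exact ⟨N0, fun n z hn hz hz' d m μ hμ hm hv =>
    Pool.Agent.Lib.MP_6b2d39_agHl.general_of_emp (h n z hn hz hz' d m μ hμ hm hv)⟩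

end Pool.Agent.Lib.MP_6b2d39_agHw
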