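import Pool.Agent.Lib.MP_6b2d39_agCr.Defs

set_option autoImplicit false

namespace Pool.Agent.Lib.MP_6b2d39_agHw

open Pool.Agent.Lib.MP_6b2d39_agCr

/-- raise the multiplicities of the points of `B` by one -/
private theorem vd_lift {n : ℕ} (d : ℕ) (μ : Fin n → ℕ) (B : Finset (Fin n)) :
    vd d (fun i => if i ∈ B then μ i + 1 else μ i) = vd d μ - ∑ i ∈ B, ((μ i : ℤ) + 1) := by
  unfold vd
  have h1 : ∑ i, (((if i ∈ B then μ i + 1 else μ i) + 1).choose 2 : ℤ) =
      ∑ i, ((μ i + 1).choose 2 : ℤ) + ∑ i, (if i ∈ B then (μ i : ℤ) + 1 else 0) := by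
    rw [← Finset.sum_add_distrib]
    refine Finset.sum_congr rfl fun i _ => ?_
    split_ifs with h
    · have h2 := Nat.choose_succ_succ' (μ i + 1) 1
      rw [Nat.choose_one_right] at h2
      have h3 : μ i + 1 + 1 = μ i + 1 + 1 := rfl
      rw [h2]
      push_cast
      ring
    · ring
  rw [h1, Finset.sum_ite_mem, Finset.univ_inter]
  ring

/-- raising `t ≤ n` of the multiplicities by one, the smaller ones first -/
theorem exists_lift {n m t : ℕ} {μ : Fin n → ℕ} (hμ : ∀ i, μ i = m ∨ μ i = m + 1)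
    (ht : t ≤ n) : ∃ (m' : ℕ) (μ' : Fin n → ℕ), (m' = m ∨ m' = m + 1) ∧ (∀ i, μ i ≤ μ' i) ∧
      (∀ i, μ' i = m' ∨ μ' i = m' + 1) ∧
      ∀ d, vd d μ - t * (m + 2) ≤ vd d μ' ∧ vd d μ' ≤ vd d μ - t * (m + 1) := by
  classical
  have key : ∀ B : Finset (Fin n), B.card = t → ∀ d,
      vd d μ - t * (m + 2) ≤ vd d (fun i => if i ∈ B then μ i + 1 else μ i) ∧
      vd d (fun i => if i ∈ B then μ i + 1 else μ i) ≤ vd d μ - t * (m + 1) := by
    intro B hB d
    rw [vd_lift]
    have h1 : ∑ i ∈ B, ((μ i : ℤ) + 1) ≤ t * (m + 2) := by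
      have h2 := Finset.sum_le_card_nsmul B (fun i => (μ i : ℤ) + 1) ((m : ℤ) + 2)
        (fun i _ => by rcases hμ i with h | h <;> rw [h] <;> push_cast <;> linarith)
      rw [hB, nsmul_eq_mul] at h2
      exact h2
    have h3 : (t : ℤ) * (m + 1) ≤ ∑ i ∈ B, ((μ i : ℤ) + 1) := by
      have h2 := Finset.card_nsmul_le_sum B (fun i => (μ i : ℤ) + 1) ((m : ℤ) + 1)
        (fun i _ => by rcases hμ i with h | h <;> rw [h] <;> push_cast <;> linarith)
      rw [hB, nsmul_eq_mul] at h2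
      exact h2
    constructor <;> linarith
  have hle : ∀ (B : Finset (Fin n)) (i : Fin n), μ i ≤ if i ∈ B then μ i + 1 else μ i := by
    intro B i
    split_ifs <;> omega
  obtain ⟨A, hA⟩ : ∃ A : Finset (Fin n), A = Finset.univ.filter fun i => μ i = m := ⟨_, rfl⟩
  have hmem : ∀ i, i ∈ A ↔ μ i = m := fun i => by simp [hA]
  rcases le_or_gt t A.card with hc | hc
  · obtain ⟨B, hBA, hB⟩ := Finset.exists_subset_card_eq hc
    refine ⟨m, fun i => if i ∈ B then μ i + 1 else μ i, Or.inl rfl, hle B, fun i => ?_,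
      key B hB⟩
    show (if i ∈ B then μ i + 1 else μ i) = m ∨ (if i ∈ B then μ i + 1 else μ i) = m + 1
    split_ifs with h
    · exact Or.inr (by rw [(hmem i).1 (hBA h)])
    · exact hμ i
  · obtain ⟨B, hAB, _, hB⟩ := Finset.exists_subsuperset_card_eq (Finset.subset_univ A) hc.le
      (by rw [Finset.card_univ, Fintype.card_fin]; exact ht)
    refine ⟨m + 1, fun i => if i ∈ B then μ i + 1 else μ i, Or.inr rfl, hle B, fun i => ?_,
      key B hB⟩
    show (if i ∈ B then μ i + 1 else μ i) = m + 1 ∨ (if i ∈ B then μ i + 1 else μ i) = m + 1 + 1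
    split_ifs with h
    · rcases hμ i with h1 | h1
      · exact Or.inl (by rw [h1])
      · exact Or.inr (by rw [h1])
    · rcases hμ i with h1 | h1
      · exact absurd (hAB ((hmem i).2 h1)) h
      · exact Or.inl h1

end Pool.Agent.Lib.MP_6b2d39_agHw
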