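import Pool.Agent.Lib.MP_6b2d39_agHw.Raise
import Pool.Agent.Lib.MP_6b2d39_agHw.Lift

set_option autoImplicit false

namespace Pool.Agent.Lib.MP_6b2d39_agHw

open Pool.Agent.Lib.MP_6b2d39_agCr

/-- HW (C). A window of half width `W` for the multiplicities `m, m + 1` and `m + 1, m + 2` bounds
the dimension inside the window: raise `t = ⌈(v + W) / (m + 1)⌉` of the multiplicities by one, the
new system is empty, and the costs are at most `t (m + 2)`. -/
theorem dim_window {n m d : ℕ} {μ : Fin n → ℕ} {W : ℝ} (hμ : ∀ i, μ i = m ∨ μ i = m + 1)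
    (hW : 0 ≤ W) (hn : 2 * W + (m + 1) ≤ n * ((m : ℝ) + 1))
    (H : ∀ (m' : ℕ) (μ' : Fin n → ℕ), (m' = m ∨ m' = m + 1) →
      (∀ i, μ' i = m' ∨ μ' i = m' + 1) → W ≤ |((vd d μ' : ℤ) : ℝ)| →
      General (fun P => (Module.finrank ℂ (curves d μ' P) : ℤ) = max (vd d μ') 0)) :
    General (fun P => max (vd d μ) 0 ≤ (Module.finrank ℂ (curves d μ P) : ℤ) ∧
      (Module.finrank ℂ (curves d μ P) : ℝ) ≤
        max ((vd d μ : ℤ) : ℝ) 0 + W + 2 * W / (m + 1) + m + 2) := by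
  have hlow : General (fun P => max (vd d μ) 0 ≤ (Module.finrank ℂ (curves d μ P) : ℤ)) :=
    (general_coord_ne 2).mono fun P hP => max_le (vd_le_finrank d μ hP) (Int.natCast_nonneg _)
  refine hlow.and ?_
  have hm0 : (0 : ℝ) < (m : ℝ) + 1 := by positivity
  have hq : 0 ≤ 2 * W / ((m : ℝ) + 1) := by positivity
  rcases le_or_gt W |((vd d μ : ℤ) : ℝ)| with hv | hv
  · refine (H m μ (Or.inl rfl) hμ hv).mono fun P hP => ?_
    have h1 : (Module.finrank ℂ (curves d μ P) : ℝ) = max ((vd d μ : ℤ) : ℝ) 0 := by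
      have h2 : (((Module.finrank ℂ (curves d μ P) : ℤ)) : ℝ) = ((max (vd d μ) 0 : ℤ) : ℝ) := by
        rw [hP]
      push_cast at h2
      exact h2
    rw [h1]
    have : (0 : ℝ) ≤ m := Nat.cast_nonneg m
    linarith
  · obtain ⟨v, hv0⟩ : ∃ v : ℝ, v = ((vd d μ : ℤ) : ℝ) := ⟨_, rfl⟩
    rw [← hv0] at hv ⊢
    rw [abs_lt] at hv
    obtain ⟨t, ht⟩ : ∃ t : ℕ, t = ⌈(v + W) / ((m : ℝ) + 1)⌉₊ := ⟨_, rfl⟩
    have h1 : (v + W) / ((m : ℝ) + 1) ≤ t := by
      rw [ht]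
      exact Nat.le_ceil _
    have h2 : (t : ℝ) < (v + W) / ((m : ℝ) + 1) + 1 := by
      rw [ht]
      refine Nat.ceil_lt_add_one ?_
      exact div_nonneg (by linarith) hm0.le
    have h3 : v + W ≤ t * ((m : ℝ) + 1) := (div_le_iff₀ hm0).1 h1
    have h4 : (t : ℝ) * (m + 1) < v + W + (m + 1) := by
      have h5 := mul_lt_mul_of_pos_right h2 hm0
      rw [add_mul, div_mul_cancel₀ _ hm0.ne', one_mul] at h5
      exact h5
    have htn : t ≤ n := by
      have h5 : (t : ℝ) * (m + 1) ≤ n * (m + 1) := by linarith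
      have h6 : (t : ℝ) ≤ n := le_of_mul_le_mul_right h5 hm0
      exact_mod_cast h6
    obtain ⟨m', μ', hm', hle, hμ', hvd⟩ := exists_lift hμ htn
    obtain ⟨l1, l2⟩ := hvd d
    have l1' : v - t * ((m : ℝ) + 2) ≤ ((vd d μ' : ℤ) : ℝ) := by
      have h5 : (((vd d μ - t * (m + 2) : ℤ)) : ℝ) ≤ ((vd d μ' : ℤ) : ℝ) := by exact_mod_cast l1
      push_cast at h5
      rw [hv0]
      exact h5
    have l2' : ((vd d μ' : ℤ) : ℝ) ≤ v - t * ((m : ℝ) + 1) := by
      have h5 : ((vd d μ' : ℤ) : ℝ) ≤ (((vd d μ - t * (m + 1) : ℤ)) : ℝ) := by exact_mod_cast l2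
      push_cast at h5
      rw [hv0]
      exact h5
    have hneg : ((vd d μ' : ℤ) : ℝ) ≤ -W := by linarith
    have hneg' : vd d μ' ≤ 0 := by
      have h5 : ((vd d μ' : ℤ) : ℝ) ≤ ((0 : ℤ) : ℝ) := by
        push_cast
        linarith
      exact_mod_cast h5
    have hE := general_le_of_empty hle hneg' (H m' μ' hm' hμ' (by
      rw [abs_of_nonpos (by linarith)]
      linarith))
    refine hE.mono fun P hP => ?_
    have h5 : (Module.finrank ℂ (curves d μ P) : ℝ) ≤ v - ((vd d μ' : ℤ) : ℝ) := by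
      have h6 : (((Module.finrank ℂ (curves d μ P) : ℤ)) : ℝ) ≤
          ((vd d μ - vd d μ' : ℤ) : ℝ) := by exact_mod_cast hP
      push_cast at h6
      rw [hv0]
      exact h6
    have h7 : (t : ℝ) * (m + 2) ≤ v + W + (m + 1) + t := by nlinarith
    have h8 : (v + W) / ((m : ℝ) + 1) ≤ 2 * W / ((m : ℝ) + 1) :=
      div_le_div_of_nonneg_right (by linarith) hm0.le
    have h9 : v ≤ max v 0 := le_max_left _ _
    linarith

end Pool.Agent.Lib.MP_6b2d39_agHw
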