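import Pool.Agent.Lib.MP_6b2d39_ag.Effective
import Pool.Agent.Lib.MP_6b2d39_agCr.Lower

set_option autoImplicit false

namespace Pool.Agent.Lib.MP_6b2d39_agHw

open Pool.Agent.Lib.MP_6b2d39_ag Pool.Agent.Lib.MP_6b2d39_agCr

/-- effective Alexander-Hirschowitz in the plane: all multiplicities at most `M`, `a ^ 2 ≥ 9 M - 1`,
`N = 2 (M + 1) a`; nonspecial for general points if `d + 1 ≥ N` or if the number of conditions is at
least `(N + 1).choose 2` (`effective_AH`; monotonicity in the degree) -/
theorem eff_general {M a d h : ℕ} (m : Fin h → ℕ) (hM : ∀ i, m i ≤ M) (ha : 9 * M ≤ a ^ 2 + 1)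
    (hd : 2 * (M + 1) * a ≤ d + 1 ∨
      (2 * (M + 1) * a + 1).choose 2 ≤ ∑ i, (m i + 1).choose 2) :
    General (fun P => (Module.finrank ℂ (curves d m P) : ℤ) = max (vd d m) 0) := by
  apply general_nonspecial_of_affine
  by_cases h1 : 2 * (M + 1) * a ≤ d + 1
  · exact effective_AH m hM ha h1
  · have h2 := hd.resolve_left h1
    obtain ⟨e, he⟩ : ∃ e, 2 * (M + 1) * a = e + 1 := ⟨2 * (M + 1) * a - 1, by omega⟩
    rw [he] at h1 h2
    have hde : d ≤ e := by omega
    obtain ⟨Φ, hΦ, hΦ2⟩ := effective_AH (d := e) m hM ha (le_of_eq he)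
    refine ⟨Φ, hΦ, ?_⟩
    intro p hp
    have h3 := hΦ2 p hp
    have h4 : (∑ i, ((m i + 1).choose 2 : ℤ)) = ((∑ i, (m i + 1).choose 2 : ℕ) : ℤ) := by
      push_cast
      rfl
    rw [h4] at h3 ⊢
    have h5 : (d + 2).choose 2 ≤ (e + 2).choose 2 := Nat.choose_le_choose 2 (by omega)
    have h6 : (e + 2).choose 2 = (e + 1 + 1).choose 2 := rfl
    have h7 : Module.finrank ℂ (fatSystem e m p) = 0 := by omega
    have hle : fatSystem d m p ≤ fatSystem e m p := by
      unfold fatSystem
      apply inf_le_inf_right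
      intro f hf
      rw [MvPolynomial.mem_restrictTotalDegree] at hf ⊢
      exact hf.trans hde
    have hfin : FiniteDimensional ℂ (fatSystem e m p) := by
      unfold fatSystem
      exact Submodule.finiteDimensional_of_le inf_le_left
    have h8 : Module.finrank ℂ (fatSystem d m p) = 0 := by
      have := Submodule.finrank_mono hle
      omega
    rw [h8]
    omega

end Pool.Agent.Lib.MP_6b2d39_agHw
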