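import Pool.Agent.Lib.MP_6b2d39_agTen.Fin10
import Pool.Agent.Lib.MP_6b2d39_agHw.Eff

/-!
Finiteness, with the exponent `3 / 2` when no multiplicity is larger than `M`.
-/

set_option autoImplicit false

namespace Pool.Agent.Lib.MP_6b2d39_agHw

open Pool.Agent.Lib.MP_6b2d39_agTen Pool.Agent.Lib.MP_6b2d39_agCr

/-- `hh_finite_ten` and the case without multiplicities larger than `M` -/
theorem hh_finite_ten' {h : ℕ} (hh : 3 ≤ h) (d : ℕ) (m : Fin h → ℕ) :
    General (fun P => IsSpecial d m P ↔ IsMinusOneSpecial d m P) ∨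
      ∃ (e : ℕ) (n : Fin h → ℕ), Relation.ReflTransGen CremonaStep (d, m) (e, n) ∧
        (∀ i, n i ≤ m i) ∧ Reduced e n ∧ General (fun P => IsSpecial e n P) ∧
        ∀ M : ℕ, 1 ≤ M →
          ((∀ i, n i ≤ M) → ∀ a : ℕ, 9 * M ≤ a ^ 2 + 1 → e + 1 < 2 * (M + 1) * a ∧
            ∑ i, (n i + 1).choose 2 < (2 * (M + 1) * a + 1).choose 2) ∧
          ((Finset.univ.filter (fun i => M < n i)).card ≤ 3 → e < 27 * M ^ 2 + 6 * M ∧
            ∑ i, (n i + 1).choose 2 < (27 * M ^ 2 + 6 * M + 2).choose 2) ∧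
          ((Finset.univ.filter (fun i => M < n i)).card ≤ 8 → e < 36 * M ^ 2 + 60 * M + 27 ∧
            ∑ i, (n i + 1).choose 2 < (36 * M ^ 2 + 60 * M + 29).choose 2) ∧
          ((Finset.univ.filter (fun i => M < n i)).card ≤ 9 →
            (Finset.univ.filter (fun i => Bd M < n i)).card ≤ 8 ∧
            e < 36 * Bd M ^ 2 + 60 * Bd M + 27 ∧
            ∑ i, (n i + 1).choose 2 < (36 * Bd M ^ 2 + 60 * Bd M + 29).choose 2) := by
  rcases hh_finite_ten hh d m with h1 | ⟨e, n, hr, hle, hred, hsp, hM⟩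
  · exact Or.inl h1
  · have hbad : ¬ General (fun P => (Module.finrank ℂ (curves e n P) : ℤ) = max (vd e n) 0) := by
      intro hg
      obtain ⟨P, h2, h3⟩ := (hsp.and hg).exists
      unfold IsSpecial at h2
      omega
    refine Or.inr ⟨e, n, hr, hle, hred, hsp, fun M h1 => ⟨fun h0 a ha => ⟨?_, ?_⟩, hM M h1⟩⟩
    · by_contra hcon
      exact hbad (eff_general n h0 ha (Or.inl (not_lt.1 hcon)))
    · by_contra hcon
      exact hbad (eff_general n h0 ha (Or.inr (not_lt.1 hcon)))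

end Pool.Agent.Lib.MP_6b2d39_agHw
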