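import Pool.Agent.Lib.MP_6b2d39_agHl.Main

set_option autoImplicit false

namespace Pool.Agent.Lib.MP_6b2d39_agHw

open Pool.Agent.Lib.MP_6b2d39_agCr

private theorem ow_two (k : ℕ) : (((k + 1).choose 2 : ℕ) : ℝ) = (k + 1) * k / 2 := by
  rw [Nat.cast_choose_two]
  push_cast
  ring

/-- `v ≤ (d + 1) (d + 2) / 2 - n m (m + 1) / 2` -/
private theorem ow_vd {n m d : ℕ} {μ : Fin n → ℕ} (hμ : ∀ i, μ i = m ∨ μ i = m + 1) :
    ((vd d μ : ℤ) : ℝ) ≤ ((d : ℝ) + 2) * (d + 1) / 2 - n * (((m : ℝ) + 1) * m / 2) := by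
  have hS : n * (m + 1).choose 2 ≤ ∑ i, (μ i + 1).choose 2 := by
    have h1 : ∑ _i : Fin n, (m + 1).choose 2 ≤ ∑ i, (μ i + 1).choose 2 := by
      refine Finset.sum_le_sum fun i _ => ?_
      exact Nat.choose_le_choose 2 (by rcases hμ i with h | h <;> omega)
    rw [Finset.sum_const, Finset.card_univ, Fintype.card_fin, smul_eq_mul] at h1
    exact h1
  have hS' : (n : ℝ) * (((m : ℝ) + 1) * m / 2) ≤ ((∑ i, (μ i + 1).choose 2 : ℕ) : ℝ) := by
    rw [← ow_two]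
    exact_mod_cast hS
  have h2 : ((vd d μ : ℤ) : ℝ) = (((d + 2).choose 2 : ℕ) : ℝ) -
      ((∑ i, (μ i + 1).choose 2 : ℕ) : ℝ) := by
    unfold vd
    push_cast
    rfl
  have h3 := ow_two (d + 1)
  have h4 : (((d + 2).choose 2 : ℕ) : ℝ) = ((d : ℝ) + 2) * (d + 1) / 2 := by
    rw [show d + 2 = d + 1 + 1 from rfl, h3]
    push_cast
    ring
  rw [h2, h4]
  linarith

/-- large multiplicities: the condition of the first window follows -/
private theorem ow_num {n z y E d m v : ℝ} (hn : 1000 ≤ n) (hz : √z ≤ √n / 8) (hE0 : 0 < E)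
    (hE : E ≤ 1 / 2) (hEn : √n ≤ 4 * (E * (√n * (m / 2)))) (hm : 4 ≤ m) (hd : 0 ≤ d)
    (hv : v ≤ (d + 2) * (d + 1) / 2 - n * ((m + 1) * m / 2)) (hw : E * d ^ 2 ≤ |v|)
    (hy : y = E ^ 2) : √z * d + y * d ^ 2 ≤ |v| := by
  have hn0 : 0 < √n := Real.sqrt_pos.2 (by linarith)
  have hnn : √n ^ 2 = n := Real.sq_sqrt (by linarith)
  have hz0 : 0 ≤ √z := Real.sqrt_nonneg z
  have hs30 : 30 ≤ √n := Real.le_sqrt_of_sq_le (by norm_num; linarith)
  rcases le_or_gt (√n * (m / 2)) d with h1 | h1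
  · have h2 : √n ≤ 4 * (E * d) := hEn.trans (by
      have := mul_le_mul_of_nonneg_left h1 hE0.le
      linarith)
    have h3 : √z ≤ E * d / 2 := by linarith
    have h4 : √z * d ≤ E * d / 2 * d := mul_le_mul_of_nonneg_right h3 hd
    have h5 : E ^ 2 * d ^ 2 ≤ E / 2 * d ^ 2 := by
      refine mul_le_mul_of_nonneg_right ?_ (sq_nonneg d)
      nlinarith
    rw [hy]
    nlinarith
  · have h2 : d ^ 2 ≤ n * m ^ 2 / 4 := by
      have h3 : d ^ 2 ≤ (√n * (m / 2)) ^ 2 := pow_le_pow_left₀ hd h1.le 2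
      rw [mul_pow, hnn] at h3
      linarith
    have h3 : √z * d ≤ n * m / 16 := by
      have h4 : √z * d ≤ √n / 8 * (√n * (m / 2)) :=
        mul_le_mul hz h1.le hd (by positivity)
      have h5 : √n / 8 * (√n * (m / 2)) = √n ^ 2 * m / 16 := by ring
      rw [h5, hnn] at h4
      exact h4
    have h4 : y * d ^ 2 ≤ n * m ^ 2 / 4 := by
      have h5 : y ≤ 1 := by
        rw [hy]
        nlinarith
      calc y * d ^ 2 ≤ 1 * d ^ 2 := mul_le_mul_of_nonneg_right h5 (sq_nonneg d)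
        _ ≤ _ := by linarith
    have h5 : 3 * d ≤ n * m / 20 := by
      have h6 : √n * (m / 2) ≤ n * m / 60 := by
        have h7 : √n * 30 ≤ n := by
          have h8 := mul_le_mul_of_nonneg_left hs30 hn0.le
          rw [← sq, hnn] at h8
          exact h8
        have h9 := mul_le_mul_of_nonneg_right h7 (by linarith : 0 ≤ m / 60)
        linarith
      linarith
    have h6 : (d + 2) * (d + 1) / 2 ≤ n * m ^ 2 / 8 + n * m / 40 + 1 := by nlinarith
    have h7 : 1 ≤ n * m / 40 := by nlinarith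
    have h8 : n * m ≤ n * m ^ 2 / 4 := by
      have : m ≤ m ^ 2 / 4 := by nlinarith
      nlinarith
    have h9 : -v ≤ |v| := neg_le_abs v
    nlinarith

/-- HW (D). One window for all multiplicities, from the window for
`n ^ 2 (m + 1) ≤ exp (z ^ (1 / 20))` and `homogeneous_window`. -/
theorem one_window (hz : ∃ N0 : ℕ, ∀ (n : ℕ) (z : ℝ), N0 ≤ n → (N0 : ℝ) ≤ z →
      z ≤ (n : ℝ) ^ (1 / 10 : ℝ) → ∀ (d m : ℕ) (μ : Fin n → ℕ),
      (∀ i, μ i = m ∨ μ i = m + 1) →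
      (n : ℝ) ^ 2 * (m + 1) ≤ Real.exp (z ^ (1 / 20 : ℝ)) →
      1000 * z ^ 3 * ((m : ℝ) + 1) ≤ |((vd d μ : ℤ) : ℝ)| →
      General (fun P => (Module.finrank ℂ (curves d μ P) : ℤ) = max (vd d μ) 0)) :
    ∃ N0 : ℕ, ∀ (n : ℕ) (z : ℝ), N0 ≤ n → (4 * Real.log n) ^ 20 ≤ z →
      z ≤ (n : ℝ) ^ (1 / 10 : ℝ) → ∀ (d m : ℕ) (μ : Fin n → ℕ),
      (∀ i, μ i = m ∨ μ i = m + 1) →
      1000 * z ^ 3 * ((m : ℝ) + 1) + Real.exp (-(z ^ (1 / 20 : ℝ) / 2)) * (d : ℝ) ^ 2 ≤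
        |((vd d μ : ℤ) : ℝ)| →
      General (fun P => (Module.finrank ℂ (curves d μ P) : ℤ) = max (vd d μ) 0) := by
  obtain ⟨N1, h1⟩ := Pool.Agent.Lib.MP_6b2d39_agHl.homogeneous_window
  obtain ⟨N2, h2⟩ := hz
  refine ⟨max N2 (max 1000 ⌈Real.exp (N1 + N2 + 1)⌉₊), fun n z hn hz1 hz2 d m μ hμ hv => ?_⟩
  have hn2 : N2 ≤ n := (le_max_left _ _).trans hn
  have hn3 : 1000 ≤ n := ((le_max_left _ _).trans (le_max_right _ _)).trans hn
  have hn4 : ⌈Real.exp (N1 + N2 + 1)⌉₊ ≤ n :=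
    ((le_max_right _ _).trans (le_max_right _ _)).trans hn
  have hnR : (1000 : ℝ) ≤ n := by exact_mod_cast hn3
  have hn0 : (0 : ℝ) < n := by linarith
  have hlog : (N1 : ℝ) + N2 + 1 ≤ Real.log n := by
    have h3 : Real.exp (N1 + N2 + 1) ≤ n := (Nat.le_ceil _).trans (by exact_mod_cast hn4)
    have h4 := Real.log_le_log (Real.exp_pos _) h3
    rwa [Real.log_exp] at h4
  have hN1 : (0 : ℝ) ≤ N1 := Nat.cast_nonneg _
  have hN2 : (0 : ℝ) ≤ N2 := Nat.cast_nonneg _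
  have hl1 : 1 ≤ 4 * Real.log n := by linarith
  have hl2 : 4 * Real.log n ≤ (4 * Real.log n) ^ 20 := le_self_pow₀ hl1 (by norm_num)
  have hzN1 : (N1 : ℝ) ≤ z := by linarith
  have hzN2 : (N2 : ℝ) ≤ z := by linarith
  have hz0 : 0 ≤ z := by linarith
  have hzn : z ≤ n := hz2.trans (by
    have h3 := Real.rpow_le_rpow_of_exponent_le (by linarith : (1 : ℝ) ≤ n)
      (by norm_num : (1 / 10 : ℝ) ≤ 1)
    rwa [Real.rpow_one] at h3)
  obtain ⟨y, hy⟩ : ∃ y : ℝ, y = z ^ (1 / 20 : ℝ) := ⟨_, rfl⟩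
  have hyl : 4 * Real.log n ≤ y := by
    rw [hy]
    have h3 := Real.rpow_le_rpow (by positivity) hz1 (by norm_num : (0 : ℝ) ≤ 1 / 20)
    have h4 : ((4 * Real.log n) ^ 20) ^ (1 / 20 : ℝ) = 4 * Real.log n := by
      rw [← Real.rpow_natCast (4 * Real.log n) 20, ← Real.rpow_mul (by linarith)]
      norm_num
    rwa [h4] at h3
  rw [← hy] at hv
  rcases le_or_gt ((n : ℝ) ^ 2 * (m + 1)) (Real.exp y) with hc | hc
  · refine h2 n z hn2 hzN2 hz2 d m μ hμ (by rw [← hy]; exact hc) ?_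
    have h3 : 0 ≤ Real.exp (-(y / 2)) * (d : ℝ) ^ 2 := by positivity
    linarith
  · refine h1 n z hzN1 hzn d m μ hμ ?_
    rw [← hy]
    have hE2 : Real.exp (-y) = Real.exp (-(y / 2)) ^ 2 := by
      rw [← Real.exp_nat_mul]
      congr 1
      push_cast
      ring
    have hy2 : (n : ℝ) ^ 2 ≤ Real.exp (y / 2) := by
      have h3 : Real.exp (2 * Real.log n) ≤ Real.exp (y / 2) := Real.exp_le_exp.2 (by linarith)
      have h4 : Real.exp (2 * Real.log n) = (n : ℝ) ^ 2 := by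
        rw [mul_comm, Real.exp_mul, Real.exp_log hn0]
        norm_num
      rwa [h4] at h3
    have hEy : Real.exp (-(y / 2)) * Real.exp (y / 2) = 1 := by
      rw [← Real.exp_add]
      simp
    have hyy : Real.exp y = Real.exp (y / 2) ^ 2 := by
      rw [← Real.exp_nat_mul]
      congr 1
      push_cast
      ring
    obtain ⟨E, hE⟩ : ∃ E : ℝ, E = Real.exp (-(y / 2)) := ⟨_, rfl⟩
    obtain ⟨F, hF⟩ : ∃ F : ℝ, F = Real.exp (y / 2) := ⟨_, rfl⟩
    rw [← hE, ← hF] at hEy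
    rw [← hF] at hy2 hyy
    rw [← hE] at hE2 hv
    have hE0 : 0 < E := by
      rw [hE]
      exact Real.exp_pos _
    have hF0 : 0 < F := by
      rw [hF]
      exact Real.exp_pos _
    have hF1 : 1000000 ≤ F := by nlinarith
    have hm1 : F ^ 2 < (n : ℝ) ^ 2 * (m + 1) := by rw [← hyy]; exact hc
    have hm2 : F ≤ (m : ℝ) + 1 := by
      have h3 : F ^ 2 ≤ F * ((m : ℝ) + 1) :=
        hm1.le.trans (mul_le_mul_of_nonneg_right hy2 (by positivity))
      rw [sq] at h3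
      exact le_of_mul_le_mul_left h3 hF0
    have hm4 : (4 : ℝ) ≤ m := by linarith
    have hsq : √z ≤ √(n : ℝ) / 8 := by
      have h3 : z ≤ (n : ℝ) / 64 := by
        have h4 : (n : ℝ) ^ (1 / 10 : ℝ) * 64 ≤ n := by
          have h5 : (n : ℝ) = (n : ℝ) ^ (1 / 10 : ℝ) * (n : ℝ) ^ (9 / 10 : ℝ) := by
            rw [← Real.rpow_add hn0]
            norm_num
          have h6 : (64 : ℝ) ≤ (n : ℝ) ^ (9 / 10 : ℝ) := by
            have h7 : ((1000 : ℝ)) ^ (9 / 10 : ℝ) ≤ (n : ℝ) ^ (9 / 10 : ℝ) :=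
              Real.rpow_le_rpow (by norm_num) hnR (by norm_num)
            have h8 : (64 : ℝ) ≤ (1000 : ℝ) ^ (9 / 10 : ℝ) := by
              have h9 : (1000 : ℝ) = 10 ^ (3 : ℝ) := by norm_num
              rw [h9, ← Real.rpow_mul (by norm_num)]
              have h10 : (10 : ℝ) ^ (2 : ℝ) ≤ (10 : ℝ) ^ (3 * (9 / 10) : ℝ) :=
                Real.rpow_le_rpow_of_exponent_le (by norm_num) (by norm_num)
              have h11 : (10 : ℝ) ^ (2 : ℝ) = 100 := by norm_num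
              linarith
            linarith
          have h7 : 0 ≤ (n : ℝ) ^ (1 / 10 : ℝ) := Real.rpow_nonneg hn0.le _
          calc (n : ℝ) ^ (1 / 10 : ℝ) * 64 ≤ (n : ℝ) ^ (1 / 10 : ℝ) * (n : ℝ) ^ (9 / 10 : ℝ) :=
                mul_le_mul_of_nonneg_left h6 h7
            _ = n := h5.symm
        linarith
      have h4 := Real.sqrt_le_sqrt h3
      have h5 : √((n : ℝ) / 64) = √(n : ℝ) / 8 := by
        rw [Real.sqrt_div hn0.le]
        congr 1
        rw [show (64 : ℝ) = 8 ^ 2 by norm_num]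
        exact Real.sqrt_sq (by norm_num)
      rwa [h5] at h4
    have hEh : E ≤ 1 / 2 := by nlinarith
    refine ow_num (n := n) (z := z) (y := Real.exp (-y)) (E := E) (m := m) hnR hsq hE0 hEh ?_ hm4
      (Nat.cast_nonneg d) (ow_vd hμ) ?_ hE2
    · have h3 : 1 ≤ 4 * (E * ((m : ℝ) / 2)) := by
        have h4 : E * F ≤ E * ((m : ℝ) + 1) := mul_le_mul_of_nonneg_left hm2 hE0.le
        rw [hEy] at h4
        nlinarith
      have h5 : 0 ≤ √(n : ℝ) := Real.sqrt_nonneg _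
      nlinarith
    · have h3 : 0 ≤ 1000 * z ^ 3 * ((m : ℝ) + 1) := by positivity
      linarith

end Pool.Agent.Lib.MP_6b2d39_agHw
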