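import Pool.Agent.Lib.MP_6b2d39_agCr.Lower

open MvPolynomial

set_option autoImplicit false

namespace Pool.Agent.Lib.MP_6b2d39_agHw

open Pool.Agent.Lib.MP_6b2d39_ag Pool.Agent.Lib.MP_6b2d39_agCr

/-- the monomials of degree `m, …, m' - 1` in two variables -/
private abbrev NJ (m m' : ℕ) : Type := Σ k : Fin (m' - m), Fin (m + (k : ℕ) + 1)

private noncomputable def njMon {m m' : ℕ} (z : NJ m m') : Fin 2 →₀ ℕ :=
  Finsupp.single 0 (z.2 : ℕ) + Finsupp.single 1 (m + (z.1 : ℕ) - (z.2 : ℕ))

private theorem njMon_surj {m m' : ℕ} {x : Fin 2 →₀ ℕ} (h1 : m ≤ Finsupp.degree x)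
    (h2 : Finsupp.degree x < m') : ∃ z : NJ m m', njMon z = x := by
  rw [degree_fin_two] at h1 h2
  refine ⟨⟨⟨x 0 + x 1 - m, by omega⟩, ⟨x 0, ?_⟩⟩, ?_⟩
  · show x 0 < m + (x 0 + x 1 - m) + 1
    omega
  · ext i
    have e : m + (x 0 + x 1 - m) - x 0 = x 1 := by omega
    fin_cases i
    · simp [njMon]
    · simp [njMon, e]

private theorem card_nj {m m' : ℕ} (h : m ≤ m') :
    Fintype.card (NJ m m') + (m + 1).choose 2 = (m' + 1).choose 2 := by
  obtain ⟨k, rfl⟩ := Nat.exists_eq_add_of_le h
  clear h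
  rw [Fintype.card_sigma]
  simp only [Fintype.card_fin]
  rw [Fin.sum_univ_eq_sum_range (fun i => m + i + 1) (m + k - m)]
  have e : m + k - m = k := by omega
  rw [e]
  clear e
  induction k with
  | zero => simp
  | succ k ih =>
    rw [Finset.sum_range_succ]
    have h1 : (m + (k + 1) + 1).choose 2 = (m + k + 1).choose 2 + (m + k + 1) := by
      have h2 := Nat.choose_succ_succ' (m + k + 1) 1
      rw [Nat.choose_one_right] at h2
      have h3 : m + (k + 1) + 1 = m + k + 1 + 1 := by omega
      rw [h3, h2]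
      ring
    rw [h1]
    omega

/-- raising multiplicities from `m i` to `m' i` costs at most
`∑ ((m' i + 1).choose 2 - (m i + 1).choose 2)` conditions -/
theorem fat_raise {d h : ℕ} {m m' : Fin h → ℕ} (hmm : ∀ i, m i ≤ m' i)
    (p : Fin h → Fin 2 → ℂ) :
    Module.finrank ℂ (fatSystem d m p) + ∑ i, (m i + 1).choose 2 ≤
      Module.finrank ℂ (fatSystem d m' p) + ∑ i, (m' i + 1).choose 2 := by
  have hfin : FiniteDimensional ℂ (fatSystem d m p) :=
    Submodule.finiteDimensional_of_le (fatSystem_le m p)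
  let T : fatSystem d m p →ₗ[ℂ] (∀ i, NJ (m i) (m' i) → ℂ) :=
    LinearMap.pi fun i => ((LinearMap.pi fun z => lcoeff ℂ (njMon z)).comp
      (trans (p i)).toLinearMap).comp (fatSystem d m p).subtype
  have hT : LinearMap.ker T = (fatSystem d m' p).comap (fatSystem d m p).subtype := by
    ext f
    rw [LinearMap.mem_ker, Submodule.mem_comap, mem_fatSystem_iff]
    have hf := (mem_fatSystem_iff m p (f : MvPolynomial (Fin 2) ℂ)).1 f.2
    constructor
    · intro h0
      refine ⟨hf.1, fun i => ?_⟩
      funext z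
      show coeff (jetMon z) (trans (p i) f) = 0
      rcases Nat.lt_or_ge (Finsupp.degree (jetMon z)) (m i) with hz | hz
      · obtain ⟨z', hz'⟩ := exists_jetMon hz
        rw [← hz']
        exact congrFun (hf.2 i) z'
      · obtain ⟨z', hz'⟩ := njMon_surj (m' := m' i) hz (by rw [degree_jetMon]; exact z.1.2)
        rw [← hz']
        exact congrFun (congrFun h0 i) z'
    · intro h0
      funext i
      funext z
      show coeff (njMon z) (trans (p i) f) = 0
      have hz : Finsupp.degree (njMon z) < m' i := by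
        rw [degree_fin_two]
        have h1 := z.1.2
        have h2 := z.2.2
        simp only [njMon, Finsupp.add_apply, Finsupp.single_apply]
        simp
        omega
      obtain ⟨z', hz'⟩ := exists_jetMon hz
      rw [← hz']
      exact congrFun (h0.2 i) z'
  have h1 := LinearMap.finrank_range_add_finrank_ker T
  have hle : fatSystem d m' p ≤ fatSystem d m p := by
    intro f hf
    rw [mem_fatSystem_iff] at hf ⊢
    refine ⟨hf.1, fun i => ?_⟩
    funext z
    show coeff (jetMon z) (trans (p i) f) = 0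
    obtain ⟨z', hz'⟩ := exists_jetMon (m := m' i) (x := jetMon z) (by
      rw [degree_jetMon]
      exact z.1.2.trans_le (hmm i))
    rw [← hz']
    exact congrFun (hf.2 i) z'
  have h2 : Module.finrank ℂ (LinearMap.ker T) = Module.finrank ℂ (fatSystem d m' p) := by
    rw [hT]
    exact (Submodule.comapSubtypeEquivOfLe hle).finrank_eq
  have h3 : Module.finrank ℂ (LinearMap.range T) + ∑ i, (m i + 1).choose 2 ≤
      ∑ i, (m' i + 1).choose 2 := by
    have h4 : Module.finrank ℂ (LinearMap.range T) ≤ ∑ i, Fintype.card (NJ (m i) (m' i)) := by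
      refine (Submodule.finrank_le _).trans (le_of_eq ?_)
      rw [Module.finrank_pi_fintype]
      exact Finset.sum_congr rfl fun i _ => Module.finrank_fintype_fun_eq_card ℂ
    have h5 : ∑ i, (Fintype.card (NJ (m i) (m' i)) + (m i + 1).choose 2) =
        ∑ i, (m' i + 1).choose 2 := Finset.sum_congr rfl fun i _ => card_nj (hmm i)
    rw [Finset.sum_add_distrib] at h5
    omega
  omega

/-- the same for plane curves -/
theorem curves_raise {h : ℕ} (d : ℕ) {m m' : Fin h → ℕ} (hmm : ∀ i, m i ≤ m' i)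
    {P : Fin h → Fin 3 → ℂ} (hP : ∀ l, P l 2 ≠ 0) :
    (Module.finrank ℂ (curves d m P) : ℤ) ≤
      Module.finrank ℂ (curves d m' P) + (vd d m - vd d m') := by
  set p : Fin h → Fin 2 → ℂ := fun l => ![P l 0 / P l 2, P l 1 / P l 2] with hp
  have h1 : P = fun l => P l 2 • ![p l 0, p l 1, 1] := by
    funext l i
    have h2 := hP l
    fin_cases i
    · simp [hp]; field_simp
    · simp [hp]; field_simp
    · simp
  have h2 : ∀ n : Fin h → ℕ, curves d n P = curves d n (fun i => ![p i 0, p i 1, 1]) := by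
    intro n
    rw [h1]
    exact curves_smul hP
  rw [h2, h2, finrank_curves_affine, finrank_curves_affine]
  have h3 := fat_raise (d := d) hmm p
  unfold vd
  have h4 : (Module.finrank ℂ (fatSystem d m p) : ℤ) + ∑ i, (((m i + 1).choose 2 : ℕ) : ℤ) ≤
      (Module.finrank ℂ (fatSystem d m' p) : ℤ) + ∑ i, (((m' i + 1).choose 2 : ℕ) : ℤ) := by
    exact_mod_cast h3
  linarith

/-- if `L_d(m')` is empty, `m ≤ m'`, then `dim L_d(m) ≤ v(d, m) - v(d, m')` -/
theorem general_le_of_empty {h d : ℕ} {m m' : Fin h → ℕ} (hmm : ∀ i, m i ≤ m' i)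
    (h0 : vd d m' ≤ 0)
    (hE : General (fun P => (Module.finrank ℂ (curves d m' P) : ℤ) = max (vd d m') 0)) :
    General (fun P => (Module.finrank ℂ (curves d m P) : ℤ) ≤ vd d m - vd d m') := by
  refine (hE.and (general_coord_ne 2)).mono fun P hP => ?_
  have h1 := curves_raise d hmm hP.2
  rw [hP.1, max_eq_right h0] at h1
  linarith

end Pool.Agent.Lib.MP_6b2d39_agHw
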