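import Pool.Agent.Lib.MP_6b2d39_agHw.Eff
import Pool.Agent.Lib.MP_6b2d39_agHl.SmallA
import Pool.Agent.Lib.MP_6b2d39_agHl.ToGen

set_option autoImplicit false

namespace Pool.Agent.Lib.MP_6b2d39_agHw

open Pool.Agent.Lib.MP_6b2d39_ag Pool.Agent.Lib.MP_6b2d39_agCr Pool.Agent.Lib.MP_6b2d39_agHl

/-- the least `a` with `a ^ 2 + 1 ≥ 9 M` -/
private theorem sm_a (M : ℕ) : ∃ a : ℕ, 9 * M ≤ a ^ 2 + 1 ∧ (a : ℝ) ≤ 3 * √M + 1 := by
  refine ⟨⌈3 * √(M : ℝ)⌉₊, ?_, (Nat.ceil_lt_add_one (by positivity)).le⟩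
  have h1 : 3 * √(M : ℝ) ≤ (⌈3 * √(M : ℝ)⌉₊ : ℝ) := Nat.le_ceil _
  have h2 : √(M : ℝ) ^ 2 = M := Real.sq_sqrt (Nat.cast_nonneg M)
  have h3 : (9 * (M : ℝ)) ≤ (⌈3 * √(M : ℝ)⌉₊ : ℝ) ^ 2 := by
    have h4 : (3 * √(M : ℝ)) ^ 2 ≤ (⌈3 * √(M : ℝ)⌉₊ : ℝ) ^ 2 :=
      pow_le_pow_left₀ (by positivity) h1 2
    calc (9 * (M : ℝ)) = (3 * √(M : ℝ)) ^ 2 := by rw [mul_pow, h2]; norm_num
      _ ≤ _ := h4
  have h5 : 9 * M ≤ ⌈3 * √(M : ℝ)⌉₊ ^ 2 := by exact_mod_cast h3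
  omega

/-- `20 (t ^ 2 - 1) ^ 2 t ^ 2 ≥ (2 (t ^ 2 + 1) (3 t + 1) + 1) ^ 2 / 2` -/
private theorem sm_num {t : ℝ} (ht : 14 ≤ t) :
    (2 * (t ^ 2 + 1) * (3 * t + 1) + 1) ^ 2 ≤ 40 * ((t ^ 2 - 1) ^ 2 * t ^ 2) := by
  have h1 : 2 * (t ^ 2 + 1) * (3 * t + 1) + 1 ≤ 6.32 * ((t ^ 2 - 1) * t) := by
    nlinarith [mul_nonneg (by linarith : (0 : ℝ) ≤ t - 14) (by nlinarith : (0 : ℝ) ≤ t ^ 2),
      mul_nonneg (by linarith : (0 : ℝ) ≤ t - 14) (by linarith : (0 : ℝ) ≤ t)]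
  have h0 : 0 ≤ 2 * (t ^ 2 + 1) * (3 * t + 1) + 1 := by positivity
  calc (2 * (t ^ 2 + 1) * (3 * t + 1) + 1) ^ 2 ≤ (6.32 * ((t ^ 2 - 1) * t)) ^ 2 :=
        pow_le_pow_left₀ h0 h1 2
    _ = 39.9424 * ((t ^ 2 - 1) ^ 2 * t ^ 2) := by ring
    _ ≤ _ := by nlinarith [mul_nonneg (sq_nonneg (t ^ 2 - 1)) (sq_nonneg t)]

private theorem sm_two (k : ℕ) : (((k + 1).choose 2 : ℕ) : ℝ) = (k + 1) * k / 2 := by
  rw [Nat.cast_choose_two]
  push_cast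
  ring

private theorem sm_bound (k : ℕ) : ∃ K : ℕ, ∀ m < k, (2 * (m + 1 + 1) * k + 1).choose 2 ≤ K :=
  ⟨(2 * (k + 1 + 1) * k + 1).choose 2, fun m hm => Nat.choose_le_choose 2 (by
    have h : 2 * (m + 1 + 1) * k ≤ 2 * (k + 1 + 1) * k :=
      Nat.mul_le_mul_right k (by omega)
    omega)⟩

/-- HW (A). Complete for `m ≤ n / 40`. (`m = 0`: `emp_one`; `1 ≤ m < 200`: `n` large;
`m ≥ 200`: `eff_general` with `M = m + 1`, `a` about `3 √(m + 1)`) -/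
theorem complete_small : ∃ N0 : ℕ, ∀ n m : ℕ, N0 ≤ n → 40 * m ≤ n →
    ∀ (d : ℕ) (μ : Fin n → ℕ), (∀ i, μ i = m ∨ μ i = m + 1) →
      General (fun P => (Module.finrank ℂ (curves d μ P) : ℤ) = max (vd d μ) 0) := by
  obtain ⟨K, hK⟩ := sm_bound 200
  refine ⟨K, fun n m hn hm d μ hμ => ?_⟩
  rcases Nat.eq_zero_or_pos m with hm0 | hm1
  · subst hm0
    exact general_of_emp (emp_one fun i => by rcases hμ i with h | h <;> omega)
  have hM : ∀ i, μ i ≤ m + 1 := fun i => by rcases hμ i with h | h <;> omega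
  have hS : n * (m + 1).choose 2 ≤ ∑ i, (μ i + 1).choose 2 := by
    have h1 : ∑ _i : Fin n, (m + 1).choose 2 ≤ ∑ i, (μ i + 1).choose 2 := by
      refine Finset.sum_le_sum fun i _ => ?_
      exact Nat.choose_le_choose 2 (by rcases hμ i with h | h <;> omega)
    rw [Finset.sum_const, Finset.card_univ, Fintype.card_fin, smul_eq_mul] at h1
    exact h1
  rcases lt_or_ge m 200 with hlt | hge
  · refine eff_general (M := m + 1) (a := 200) μ hM (by nlinarith) (Or.inr ?_)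
    have h1 := hK m hlt
    have h2 : 1 ≤ (m + 1).choose 2 := Nat.choose_pos (by omega)
    calc (2 * (m + 1 + 1) * 200 + 1).choose 2 ≤ n := h1.trans hn
      _ ≤ n * (m + 1).choose 2 := Nat.le_mul_of_pos_right n h2
      _ ≤ _ := hS
  · obtain ⟨a, ha, ha'⟩ := sm_a (m + 1)
    refine eff_general (M := m + 1) (a := a) μ hM ha (Or.inr (le_trans ?_ hS))
    obtain ⟨t, ht⟩ : ∃ t : ℝ, t = √((m : ℝ) + 1) := ⟨_, rfl⟩
    have hm' : (200 : ℝ) ≤ m := by exact_mod_cast hge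
    have ht2 : t ^ 2 = (m : ℝ) + 1 := by
      rw [ht]
      exact Real.sq_sqrt (by linarith)
    have ht14 : 14 ≤ t := by
      rw [ht]
      exact Real.le_sqrt_of_sq_le (by norm_num; linarith)
    have ha2 : (a : ℝ) ≤ 3 * t + 1 := by
      rw [ht]
      push_cast at ha'
      exact ha'
    have h1 : (((2 * (m + 1 + 1) * a + 1).choose 2 : ℕ) : ℝ) ≤
        ((n * (m + 1).choose 2 : ℕ) : ℝ) := by
      rw [sm_two]
      push_cast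
      rw [sm_two]
      have h2 : 2 * ((m : ℝ) + 1 + 1) * a ≤ 2 * (t ^ 2 + 1) * (3 * t + 1) := by
        rw [ht2]
        have h3 : (0 : ℝ) ≤ 2 * ((m : ℝ) + 1 + 1) := by linarith
        exact mul_le_mul_of_nonneg_left ha2 h3
      have h4 : (0 : ℝ) ≤ 2 * ((m : ℝ) + 1 + 1) * a := by positivity
      have h5 : (2 * ((m : ℝ) + 1 + 1) * a + 1) ^ 2 ≤ 40 * ((t ^ 2 - 1) ^ 2 * t ^ 2) :=
        (pow_le_pow_left₀ (by linarith) (by linarith) 2).trans (sm_num ht14)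
      have h6 : t ^ 2 - 1 = (m : ℝ) := by
        rw [ht2]
        ring
      rw [h6, ht2] at h5
      have hn' : 40 * (m : ℝ) ≤ n := by exact_mod_cast hm
      have h7 : (0 : ℝ) ≤ ((m : ℝ) + 1) * m / 2 := by positivity
      have h8 := mul_le_mul_of_nonneg_right hn' h7
      nlinarith
    exact_mod_cast h1

end Pool.Agent.Lib.MP_6b2d39_agHw
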